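import Pool.Agent.H479Z.Defs
import Pool.Agent.H479Z.Peak

set_option autoImplicit false
open Metric

namespace Pool.Agent.Results.MP_65d7a7_an.NoCheese

open Pool.Agent.H479Z

/-- Every Swiss cheese `X` has a nonpeak point for `R(X)` at which every bounded point derivation
on `R(X)` vanishes. -/
theorem result (c0 : ℂ) (R : ℝ) (c : ℕ → ℂ) (r : ℕ → ℝ) (X : Set ℂ)
    (hR : 0 < R) (hr : ∀ n, 0 < r n)
    (hsub : ∀ n, closedBall (c n) (r n) ⊆ ball c0 R)
    (hdisj : ∀ m n, m ≠ n → Disjoint (closedBall (c m) (r m)) (closedBall (c n) (r n)))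
    (hsum : Summable r)
    (hX : X = closedBall c0 R \ ⋃ n, ball (c n) (r n))
    (hint : interior X = ∅) :
    ∃ x : X, ¬ IsPeak X x ∧ ∀ D : C(X, ℂ) → ℂ, IsBPD X x D → ∀ f ∈ RX X, D f = 0 := by
  subst hX
  obtain ⟨x, hx⟩ := exists_nonpeak hR hr hsub hdisj hsum
  exact exists_nonpeak_no_bpd
    ((isCompact_closedBall _ _).diff (isOpen_iUnion fun _ => isOpen_ball)) hint hx

end Pool.Agent.Results.MP_65d7a7_an.NoCheese
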